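import Mathlib
import Pool.Agent.V11232.OSR.Form

/-!
The positive fragment of the theory of one-step rewriting is undecidable for a suitable fixed
finite rewrite system (question Q2).

The rewrite system belongs to a register machine that generates a recursively enumerable set which
is not computable. The sentence for the input `n` has the quantifier shape `∃*∀∃*`; it says that
every ground term fails to be the history of an accepting computation on input `n`. Kinds of
rewrite steps are recognised by closed walks: five kinds of auxiliary symbols change their version
cyclically, with cycles of the lengths 5, 6, 7, 8, 9, and all other rules decrease a weight.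
-/

set_option autoImplicit false

namespace Pool.Agent.Results.MP_342291_lc.PositiveTheory

open Pool.Agent.V11232.OSR

theorem code_injective : Function.Injective PF.code := by
  intro a
  induction a with
  | eq i j =>
    intro b h
    cases b <;> simp only [PF.code] at h
    case eq k l =>
      have : Nat.pair i j = Nat.pair k l := by omega
      rw [Nat.pair_eq_pair] at this
      rw [this.1, this.2]
    all_goals omega
  | rel i j =>
    intro b h
    cases b <;> simp only [PF.code] at h
    case rel k l =>
      have : Nat.pair i j = Nat.pair k l := by omega
      rw [Nat.pair_eq_pair] at this
      rw [this.1, this.2]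
    all_goals omega
  | and a1 a2 ih1 ih2 =>
    intro b h
    cases b <;> simp only [PF.code] at h
    case and b1 b2 =>
      have : Nat.pair a1.code a2.code = Nat.pair b1.code b2.code := by omega
      rw [Nat.pair_eq_pair] at this
      rw [ih1 this.1, ih2 this.2]
    all_goals omega
  | or a1 a2 ih1 ih2 =>
    intro b h
    cases b <;> simp only [PF.code] at h
    case or b1 b2 =>
      have : Nat.pair a1.code a2.code = Nat.pair b1.code b2.code := by omega
      rw [Nat.pair_eq_pair] at this
      rw [ih1 this.1, ih2 this.2]
    all_goals omega
  | ex i a1 ih =>
    intro b h
    cases b <;> simp only [PF.code] at h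
    case ex k b1 =>
      have : Nat.pair i a1.code = Nat.pair k b1.code := by omega
      rw [Nat.pair_eq_pair] at this
      rw [this.1, ih this.2]
    all_goals omega
  | all i a1 ih =>
    intro b h
    cases b <;> simp only [PF.code] at h
    case all k b1 =>
      have : Nat.pair i a1.code = Nat.pair k b1.code := by omega
      rw [Nat.pair_eq_pair] at this
      rw [this.1, ih this.2]
    all_goals omega

/-- There are a finite signature `S` with arities `ar`, containing a constant, and a finite set `R`
of rewrite rules over it, such that no algorithm decides which positive sentences hold in the
structure of all ground terms with the one-step rewriting relation `Step R`: no computable function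
`f` gives, for all positive sentences `φ` (built from `x = y` and `x → y` by `∧`, `∨`, `∃`, `∀`;
`φ.fv = ∅` means that `φ` has no free variables), the correct answer `f φ.code` to the question
whether `φ` holds. The Gödel numbering `PF.code` of the formulas is injective. -/
theorem result : Function.Injective PF.code ∧
    ∃ (S : Type) (_ : Fintype S) (ar : S → ℕ) (R : Set (Tm S ar ℕ × Tm S ar ℕ)),
      (∃ c, ar c = 0) ∧ R.Finite ∧ (∀ ρ ∈ R, IsRule ρ) ∧
      ¬ ∃ f : ℕ → Bool, Computable f ∧ ∀ φ : PF, φ.fv = ∅ →
        (f φ.code = true ↔ ∀ v : ℕ → Tm S ar Empty, φ.Sat (Step R) v) :=
  ⟨code_injective, main⟩

end Pool.Agent.Results.MP_342291_lc.PositiveTheory
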